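import Mathlib

set_option autoImplicit false

namespace Pool.Agent.H.MP_355d06_an

open Set

theorem one {K : Type} [Countable K] (g : Set ℕ → K) {E : Set ℕ} (hE : E.Infinite) :
    ∃ (c : K) (t : Finset ℕ) (D : Set ℕ), (↑t ⊆ E ∧ D ⊆ E ∧ D.Infinite) ∧
      ∀ C ⊆ D, C.Infinite → ∃ B ⊆ ↑t ∪ C, ↑t ⊆ B ∧ B.Infinite ∧ g B = c := by
  by_contra! h
  have : Nonempty K := ⟨g E⟩
  obtain ⟨e, he⟩ := exists_surjective_nat K
  have : ∀ (n : ℕ) (x : {x : Finset ℕ × Set ℕ // ↑x.1 ⊆ E ∧ x.2 ⊆ E ∧ x.2.Infinite}),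
      ∃ y : {x : Finset ℕ × Set ℕ // ↑x.1 ⊆ E ∧ x.2 ⊆ E ∧ x.2.Infinite}, x.1.1 ⊂ y.1.1 ∧ y.1.2 ⊆ x.1.2 ∧
        ↑y.1.1 ⊆ ↑x.1.1 ∪ y.1.2 ∧ ∀ B ⊆ ↑x.1.1 ∪ y.1.2, ↑x.1.1 ⊆ B → B.Infinite → g B ≠ e n := fun n x => by
    obtain ⟨C, a, b, c⟩ := h (e n) _ _ x.2
    obtain ⟨p, d, d'⟩ := b.exists_notMem_finset x.1.1
    exact ⟨⟨(insert p x.1.1, C), by simp [insert_subset_iff, x.2.1, x.2.2.1 (a d)], a.trans x.2.2.1, b⟩,
      Finset.ssubset_insert d', a, by simp [insert_subset_iff, d], c⟩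
  choose F f1 f2 f3 f4 using this
  obtain ⟨u, hu⟩ : ∃ u : ℕ → _, ∀ n, u (n + 1) = F n (u n) :=
    ⟨fun n => n.rec ⟨(∅, E), by simp [hE]⟩ F, fun _ => rfl⟩
  have m : StrictMono fun n => (u n).1.1 := strictMono_nat_of_lt_succ fun n => hu n ▸ f1 n _
  have m' : Antitone fun n => (u n).1.2 := antitone_nat_of_succ_le fun n => hu n ▸ f2 n _
  obtain ⟨n, hn⟩ := he (g (⋃ n, ↑(u n).1.1))
  refine f4 n (u n) _ (iUnion_subset fun i => ?_) (subset_iUnion (fun n => (↑(u n).1.1 : Set ℕ)) n)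
    (fun c => ?_) hn.symm
  · rw [← hu]
    induction i with
    | zero => exact (Finset.coe_subset.mpr (m.monotone n.zero_le)).trans subset_union_left
    | succ i ih =>
      rcases le_or_gt (i + 1) n with c | c
      · exact (Finset.coe_subset.mpr (m.monotone c)).trans subset_union_left
      · exact (hu i ▸ f3 i (u i)).trans (union_subset ih ((m' c).trans subset_union_right))
  · exact (infinite_range_of_injective m.injective) ((c.finite_subsets.preimage
      Finset.coe_injective.injOn).subset (range_subset_iff.mpr fun i =>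
        subset_iUnion (fun n => (↑(u n).1.1 : Set ℕ)) i))

def G (V : Set (ℕ → ℕ)) : List (Finset ℕ) → ℕ → (ℕ → ℕ) → Set ℕ → Prop
  | [], _, x, _ => x ∈ V
  | t :: ts, j, x, C => (∀ p ∈ t, j ≤ x p) ∧ ∀ C' ⊆ C, C'.Infinite →
      ∃ B ⊆ ↑t ∪ C', ∃ D ⊆ B, D.Infinite ∧ G V ts (j + 1) (x + B.indicator 1) D

theorem G.mono {V ts j x C C'} (h : G V ts j x C) (e : C' ⊆ C) : G V ts j x C' := by
  cases ts with
  | nil => exact h
  | cons t ts => exact ⟨h.1, fun D a => h.2 D (a.trans e)⟩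

theorem G.stem {V j x C} {ts : List (Finset ℕ)} (h : G V (ts.drop j) j x C) : ∀ p ∈ ts.getD j ∅, j ≤ x p := by
  rcases lt_or_ge j ts.length with c | c
  · rw [List.drop_eq_getElem_cons c] at h
    simpa [c] using h.1
  · simp [c]

theorem gex {K : Type} [Countable K] (c : (ℕ → ℕ) → K) (k : ℕ) : ∀ j x (E : Set ℕ), E.Infinite →
    (∀ p ∈ E, j ≤ x p) → ∃ γ : K × List (Finset ℕ), γ.2.length = k ∧
      ∃ D ⊆ E, D.Infinite ∧ G {y | c y = γ.1} γ.2 j x D := by
  induction k with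
  | zero => exact fun j x E a _ => ⟨(c x, []), rfl, E, le_rfl, a, rfl⟩
  | succ k ih =>
    intro j x E a b
    have : ∀ B : Set ℕ, ∃ γ : K × List (Finset ℕ), B.Infinite → B ⊆ E → γ.2.length = k ∧
        ∃ D ⊆ B, D.Infinite ∧ G {y | c y = γ.1} γ.2 (j + 1) (x + B.indicator 1) D := fun B => by
      by_cases h : B.Infinite ∧ B ⊆ E
      · exact (ih _ _ B h.1 fun p hp => by simp [hp, b p (h.2 hp)]).imp fun _ e _ _ => e
      · exact ⟨(c x, []), fun d e => (h ⟨d, e⟩).elim⟩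
    choose g hg using this
    obtain ⟨γ, t, D, ⟨d1, d2, d3⟩, d4⟩ := one g a
    obtain ⟨B, e1, -, e2, e3⟩ := d4 D le_rfl d3
    refine ⟨(γ.1, t :: γ.2), by simp [← e3, (hg B e2 (e1.trans (union_subset d1 d2))).1], D, d2, d3,
      fun p hp => b p (d1 hp), fun C e f => ?_⟩
    obtain ⟨B, e1, -, e2, rfl⟩ := d4 C e f
    exact ⟨B, e1, (hg B e2 (e1.trans (union_subset d1 (e.trans d2)))).2⟩

def I {ι : Type} (R : ι → ι → Prop) (V : Set (ℕ → ℕ)) (ts : List (Finset ℕ)) (j : ι → ℕ)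
    (x : ι → ℕ → ℕ) (C : Set ℕ) : Prop :=
  C.Infinite ∧ (∀ a b, R a b → ∀ p, x a p ≤ x b p + 1) ∧ ∀ a, (∀ p, x a p ≤ j a) ∧ (∀ p ∈ C, j a ≤ x a p) ∧
    (∀ l ≤ j a, ∀ p ∈ ts.getD l ∅, l ≤ x a p) ∧ G V (ts.drop (j a)) (j a) (x a) C

theorem adv {ι : Type} [Fintype ι] {R : ι → ι → Prop} {V ts} {j' : ι → ℕ} (h1 : ∀ a, j' a ≤ ts.length)
    (h2 : ∀ a b, R a b → j' a ≤ j' b + 1) (n : ℕ) : ∀ j x C, j ≤ j' → ∑ a, (j' a - j a) = n → I R V ts j x C →
      ∃ x' C', I R V ts j' x' C' ∧ ∀ a, ∀ p ∉ C, (∀ l, p ∉ ts.getD l ∅) → x' a p = x a p := by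
  classical
  induction n with
  | zero =>
    intro j x C a b c
    obtain rfl : j = j' := funext fun i =>
      (a i).antisymm (Nat.sub_eq_zero_iff_le.mp (Finset.sum_eq_zero_iff.mp b i (Finset.mem_univ i)))
    exact ⟨x, C, c, fun _ _ _ _ => rfl⟩
  | succ n ih =>
    intro j x C hj hn ⟨c1, c2, c3⟩
    obtain ⟨a, ha, ha'⟩ := Finset.exists_min_image (Finset.univ.filter fun a => j a < j' a) j (by
      obtain ⟨a, -, h⟩ := Finset.exists_ne_zero_of_sum_ne_zero (hn.trans_ne n.succ_ne_zero)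
      exact ⟨a, by simp; omega⟩)
    simp only [Finset.mem_filter, Finset.mem_univ, true_and] at ha ha'
    have g := (c3 a).2.2.2
    rw [List.drop_eq_getElem_cons (ha.trans_le (h1 a))] at g
    obtain ⟨B, b1, D, d1, d2, d3⟩ := g.2 C le_rfl c1
    rw [← List.getD_eq_getElem _ ∅] at b1
    refine (ih (Function.update j a (j a + 1)) (Function.update x a (x a + B.indicator 1)) (D ∩ C)
      (fun b => by
        rcases eq_or_ne b a with rfl | h
        · simpa using ha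
        · simpa [h] using hj b)
      (by
        rw [← Finset.add_sum_erase _ _ (Finset.mem_univ a)] at hn ⊢
        rw [Finset.sum_congr rfl fun b hb => by rw [Function.update_of_ne (Finset.ne_of_mem_erase hb)],
          Function.update_self]
        omega)
      ⟨((d2.sdiff (ts.getD (j a) ∅).finite_toSet).mono fun p hp =>
        ⟨hp.1, (b1 (d1 hp.1)).resolve_left hp.2⟩), fun b b' r p => ?_, fun b => ?_⟩).imp fun x' =>
        Exists.imp fun C' e => ⟨e.1, fun b p h h' => (e.2 b p (fun c => h c.2) h').trans ?_⟩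
    rotate_left 2
    · rcases eq_or_ne b a with rfl | c
      · simp [indicator_of_notMem fun c => (b1 c).elim (h' _) h]
      · simp [c]
    · have := c2 b b' r p
      by_cases h : b = a <;> by_cases h' : b' = a
      · rw [h, h']; omega
      · rw [h, Function.update_self, Function.update_of_ne h']
        subst h
        by_cases c : p ∈ B
        · have u := (c3 b).1 p
          have v : j b ≤ j b' := (hj b').eq_or_lt.elim (fun e : j b' = j' b' => by have := h2 _ _ r; omega) (ha' b')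
          have : j b ≤ x b' p := (b1 c).elim ((c3 b').2.2.1 _ v p) fun e => v.trans ((c3 b').2.1 p e)
          simp [c]; omega
        · simpa [c] using this
      · rw [h', Function.update_self, Function.update_of_ne h]
        exact this.trans (by simp [h'])
      · simp [h, h', this]
    · rcases eq_or_ne b a with rfl | h
      · obtain ⟨u1, u2, u3, -⟩ := c3 b
        simp only [Function.update_self]
        refine ⟨fun p => ?_, fun p hp => ?_, fun l hl p hp => ?_, d3.mono inter_subset_left⟩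
        · have := u1 p
          by_cases c : p ∈ B <;> simp [c] <;> omega
        · simpa [d1 hp.1] using u2 p hp.2
        · rcases hl.eq_or_lt with rfl | hl
          · exact d3.stem p hp
          · exact (u3 l (by omega) p hp).trans (Nat.le_add_right _ _)
      · obtain ⟨u1, u2, u3, u4⟩ := c3 b
        simp only [Function.update_of_ne h]
        exact ⟨u1, fun p hp => u2 p hp.2, u3, u4.mono inter_subset_right⟩

theorem hex {K : Type} [Countable K] (c : (ℕ → ℕ) → K) (k : ℕ) : ∃ x : Fin (k + 1) → ℕ → ℕ,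
    (∀ a b, c (x a) = c (x b)) ∧ (∀ a p, x a p ≤ k) ∧
    (∀ a b : Fin (k + 1), (b : ℕ) ≤ a + 1 → ∀ p, x a p ≤ x b p + 1) ∧ ∃ p, x 0 p = k ∧ x (Fin.last k) p = 0 := by
  obtain ⟨⟨γ, ts⟩, h1, D, -, h2, h3⟩ := gex c k 0 0 univ infinite_univ (by simp)
  dsimp only at h1 h3
  obtain ⟨x, C, ⟨a1, a2, a3⟩, -⟩ := adv (R := fun a b : Fin (k + 1) => (b : ℕ) ≤ a + 1) (V := {y | c y = γ})
    (ts := ts) (j' := fun a => k - a) (by omega) (by omega) _ 0 0 D zero_le rfl
    ⟨h2, by simp, fun a => ⟨by simp, by simp, by simp, h3⟩⟩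
  obtain ⟨p, p1, p2⟩ := a1.exists_notMem_finset ((Finset.range k).biUnion fun l => ts.getD l ∅)
  obtain ⟨y, C', ⟨-, b2, b3⟩, b4⟩ := adv (j' := fun _ => k) (by omega) (by omega) _ _ x (C \ {p})
    (fun a => Nat.sub_le _ _) rfl ⟨a1.sdiff (finite_singleton p), a2, fun a =>
      ⟨(a3 a).1, fun q hq => (a3 a).2.1 q hq.1, (a3 a).2.2.1, (a3 a).2.2.2.mono sdiff_subset⟩⟩
  have e : ∀ a, y a p = x a p := fun a => b4 a p (by simp) fun l hl => by
    rcases lt_or_ge l k with d | d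
    · exact p2 (Finset.mem_biUnion.mpr ⟨l, Finset.mem_range.mpr d, hl⟩)
    · simp [h1, d] at hl
  have g : ∀ a, c (y a) = γ := fun a => by simpa [← h1, G] using (b3 a).2.2.2
  exact ⟨y, fun a b => by rw [g, g], fun a => (b3 a).1, b2, p,
    ((b3 0).1 p).antisymm (e 0 ▸ (a3 0).2.1 p p1), by simpa [e] using (a3 (Fin.last k)).1 p⟩

end Pool.Agent.H.MP_355d06_an
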